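import Pool.Agent.Zk91.KB.Fin

/-!
# Billiards in the square and the triangular kaleidoscope with Berry sequences (MP_6b977f_mp)

The plane is `ℂ`. The definitions `MW`, `lin`, `J0`, `IsRandomWave`, `resc`, `IsCutoff`,
`IsLocalLimit` are those of `Pool.Agent.N661.BR.Defs` (the space of the smooth solutions of
`Δf + f = 0`, linear combinations of values, the Bessel function, the law of the isotropic random
wave, the rescaled cut-off eigenfunction, the cut-offs, and the limit points of the local
measures); `lap` is the Laplacian.

`Mirror r s k` is the union of the lines `Re (e^{iπk/r} z) ∈ s ℤ` (`k` even) or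
`Re (e^{iπk/r} z) ∈ 2 cos (π/r) s ℤ` (`k` odd). For `r = 4` all these lines are the mirrors of the
tiling of the plane by right isosceles triangles (`x ∈ sℤ`, `y ∈ sℤ`, `x ± y ∈ 2sℤ`); for `r = 6` they
are the lines through the sides and the altitudes of the tiling by equilateral triangles with side
`2s`. Every polygon bounded by such lines is an almost integrable billiard: the equilateral
triangle, the triangles with angles `π/2, π/4, π/4` and `π/2, π/3, π/6`, the hexagon, rhombi,
trapezoids, all polygons tiled by such triangles.

There are smooth functions `u n` on the plane with `Δ(u n) + lam n * u n = 0`, `lam n → ∞`, with the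
Dirichlet condition (or, for another choice, the Neumann condition) on all mirrors, such that on EVERY
bounded nonempty open set `Ω`, after multiplication with constants `c n → 1` with
`∫_Ω (c n * u n)² = |Ω|`, the local measures on `Ω` converge to the law of the isotropic random wave.
If the frontier of `Ω` is contained in the mirrors, these are eigenfunctions of the billiard `Ω`.

Proof. The eigenfunction is a sum of `n + 1` modes with frequency vectors `ξ i` of equal length in a
lattice, with nearly equidistributed directions, where ALL coordinates of all the `ξ i` together have no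
short integer relation; each mode is the sum over the rotations of `ξ i`. The domain is not tiled by
period cells of the products which occur, so their integrals over `Ω` are not exactly zero: the
frequencies are multiplied by a large integer, chosen for a countable dense family of sets with the
lemma of Riemann and Lebesgue against the exponential growth of the coefficients. For the resulting
independent model the central limit theorem with error estimates holds.
-/

set_option autoImplicit false

open Filter Topology MeasureTheory Set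
open scoped ContDiff

namespace Pool.Agent.Zk91.Kept.KaleidoscopeBilliards

open Pool.Agent.W745.RW (lap)
open Pool.Agent.N661.BR (J0 MW lin IsRandomWave resc IsCutoff IsLocalLimit)
open Pool.Agent.Zk91.KB (Mirror)

/-- the Dirichlet condition on all mirrors -/
def Dirichlet (r : ℕ) (s : ℝ) (u : ℂ → ℝ) : Prop := ∀ k, ∀ z ∈ Mirror r s k, u z = 0

/-- the Neumann condition on all mirrors: the derivative in the direction `e^{-iπk/r}` orthogonal to
the lines of `Mirror r s k` vanishes on these lines -/
def Neumann (r : ℕ) (s : ℝ) (u : ℂ → ℝ) : Prop := ∀ k, ∀ z ∈ Mirror r s k,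
  fderiv ℝ u z (Complex.exp (-(Complex.I * ((Real.pi * k / r : ℝ) : ℂ)))) = 0

/-- **Theorem.** Let `r = 4` or `r = 6`, `s > 0`, and let `BC` be one of the two boundary conditions on
the mirrors. There are `lam n → ∞` and smooth functions `u n` on the plane with
`Δ(u n) + lam n * u n = 0` and with the boundary condition `BC` such that for every bounded nonempty
open set `Ω` there are constants `c n → 1` for which `∫_Ω (c n * u n)² = |Ω|` for all large `n`, all
finite dimensional characteristic functions of the local measures of `c n * u n` on `Ω` converge to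
those of the isotropic random wave, and a probability law `μ` on `MW` is a limit point of the local
measures if and only if it is the law of the isotropic random wave. -/
theorem result (r : ℕ) (hr : r = 4 ∨ r = 6) (s : ℝ) (hs : 0 < s) (BC : (ℂ → ℝ) → Prop)
    (hBC : BC = Dirichlet r s ∨ BC = Neumann r s) :
    ∃ (lam : ℕ → ℝ) (u : ℕ → ℂ → ℝ), Tendsto lam atTop atTop ∧
      (∀ n, ContDiff ℝ ∞ (u n)) ∧ (∀ n z, lap (u n) z + lam n * u n z = 0) ∧ (∀ n, BC (u n)) ∧
      ∀ Ω : Set ℂ, IsOpen Ω → Ω.Nonempty → Bornology.IsBounded Ω →
        ∃ c : ℕ → ℝ, Tendsto c atTop (𝓝 1) ∧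
          (∀ᶠ n in atTop, ∫ z in Ω, (c n * u n z) ^ 2 = volume.real Ω) ∧
          ∀ χ : ℝ → ℝ, IsCutoff χ →
            (∀ (k : ℕ) (w : Fin k → ℂ) (t : Fin k → ℝ),
              Tendsto (fun n => (1 / volume.real Ω : ℝ) * ∫ z in Ω, Complex.exp
                (Complex.I * ((∑ j, t j * resc χ Ω (lam n) (fun z => c n * u n z) z (w j) : ℝ) : ℂ)))
                atTop
                (𝓝 ((Real.exp (-(∑ i, ∑ j, t i * t j * J0 ‖w i - w j‖) / 2) : ℝ) : ℂ))) ∧
            ∀ μ : Measure MW, IsProbabilityMeasure μ →
              (IsLocalLimit χ Ω lam (fun n z => c n * u n z) μ ↔ IsRandomWave μ) := by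
  rcases hr with rfl | rfl
  · obtain ⟨d, R, -, hlam, hgood⟩ := Pool.Agent.Zk91.KB.good (Pool.Agent.Zk91.KB.K4 s hs)
    rcases hBC with h | h
    · refine ⟨_, fun n => (Pool.Agent.Zk91.KB.K4 s hs).u (d n) (R n) 0, hlam,
        fun n => Pool.Agent.Zk91.KB.Kal.contDiff _ (d n) (R n) 0,
        fun n z => Pool.Agent.Zk91.KB.Kal.helmholtz _ (d n) (R n) 0 z, fun n => ?_,
        fun Ω h1 h2 h3 => hgood 0 Ω h1 h2 h3⟩
      rw [h]
      exact fun k z hz => Pool.Agent.Zk91.KB.dir4 s hs (d n) (R n) k z hz
    · refine ⟨_, fun n => (Pool.Agent.Zk91.KB.K4 s hs).u (d n) (R n) (Real.pi / 2), hlam,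
        fun n => Pool.Agent.Zk91.KB.Kal.contDiff _ (d n) (R n) _,
        fun n z => Pool.Agent.Zk91.KB.Kal.helmholtz _ (d n) (R n) _ z, fun n => ?_,
        fun Ω h1 h2 h3 => hgood _ Ω h1 h2 h3⟩
      rw [h]
      exact fun k z hz => Pool.Agent.Zk91.KB.neu4 s hs (d n) (R n) k z hz
  · obtain ⟨d, R, -, hlam, hgood⟩ := Pool.Agent.Zk91.KB.good (Pool.Agent.Zk91.KB.K6 s hs)
    rcases hBC with h | h
    · refine ⟨_, fun n => (Pool.Agent.Zk91.KB.K6 s hs).u (d n) (R n) 0, hlam,
        fun n => Pool.Agent.Zk91.KB.Kal.contDiff _ (d n) (R n) 0,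
        fun n z => Pool.Agent.Zk91.KB.Kal.helmholtz _ (d n) (R n) 0 z, fun n => ?_,
        fun Ω h1 h2 h3 => hgood 0 Ω h1 h2 h3⟩
      rw [h]
      exact fun k z hz => Pool.Agent.Zk91.KB.dir6 s hs (d n) (R n) k z hz
    · refine ⟨_, fun n => (Pool.Agent.Zk91.KB.K6 s hs).u (d n) (R n) (Real.pi / 2), hlam,
        fun n => Pool.Agent.Zk91.KB.Kal.contDiff _ (d n) (R n) _,
        fun n z => Pool.Agent.Zk91.KB.Kal.helmholtz _ (d n) (R n) _ z, fun n => ?_,
        fun Ω h1 h2 h3 => hgood _ Ω h1 h2 h3⟩
      rw [h]
      exact fun k z hz => Pool.Agent.Zk91.KB.neu6 s hs (d n) (R n) k z hz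

end Pool.Agent.Zk91.Kept.KaleidoscopeBilliards
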